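import Mathlib

/-!
# The additivity number of `Split(Ω, Λ)` is at most the cofinality of the ultrafilter number
-/

set_option autoImplicit false

open Set Cardinal

namespace Pool.Agent.Results.MP_312f56_gt.AdditivityAtMostCofU

/-- `U` is a relatively open subset of `X` -/
def RelOpen (X U : Set ℝ) : Prop := ∃ O : Set ℝ, IsOpen O ∧ U = X ∩ O

/-- open covers of `X`: families of relatively open subsets with union `X` which do not contain `X` -/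
def OpenCover (X : Set ℝ) (𝒰 : Set (Set ℝ)) : Prop :=
  (∀ U ∈ 𝒰, RelOpen X U) ∧ ⋃₀ 𝒰 = X ∧ X ∉ 𝒰

/-- `Λ(X)`: open covers such that every point of `X` is in infinitely many members -/
def LargeCover (X : Set ℝ) (𝒰 : Set (Set ℝ)) : Prop :=
  OpenCover X 𝒰 ∧ ∀ x ∈ X, {U ∈ 𝒰 | x ∈ U}.Infinite

/-- `Ω(X)`: open covers such that every finite subset of `X` is contained in a member -/
def OmegaCover (X : Set ℝ) (𝒰 : Set (Set ℝ)) : Prop :=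
  OpenCover X 𝒰 ∧ ∀ F : Set ℝ, F.Finite → F ⊆ X → ∃ U ∈ 𝒰, F ⊆ U

/-- `Split(Ω, Λ)` -/
def Split (X : Set ℝ) : Prop :=
  ∀ 𝒰 : Set (Set ℝ), OmegaCover X 𝒰 → ∃ 𝒱 𝒲 : Set (Set ℝ), 𝒱 ∪ 𝒲 = 𝒰 ∧ Disjoint 𝒱 𝒲 ∧
    (∃ 𝒱' ⊆ 𝒱, LargeCover X 𝒱') ∧ ∃ 𝒲' ⊆ 𝒲, LargeCover X 𝒲'

/-- the additivity number -/
noncomputable def addS : Cardinal :=
  sInf {c | ∃ 𝓕 : Set (Set ℝ), (∀ X ∈ 𝓕, Split X) ∧ ¬ Split (⋃₀ 𝓕) ∧ #𝓕 = c}

/-- the least cardinality of a set of reals without the property -/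
noncomputable def nonS : Cardinal := sInf {c | ∃ X : Set ℝ, ¬ Split X ∧ #X = c}

/-- the ultrafilter number: the least cardinality of a base of a nonprincipal ultrafilter on `ℕ` -/
noncomputable def uNum : Cardinal :=
  sInf {c | ∃ (p : Ultrafilter ℕ) (B : Set (Set ℕ)), (p : Filter ℕ) ≤ Filter.cofinite ∧
    (∀ b ∈ B, b ∈ p) ∧ (∀ s ∈ p, ∃ b ∈ B, b ⊆ s) ∧ #B = c}

lemma uNum_le {p : Ultrafilter ℕ} {B : Set (Set ℕ)} (h1 : (p : Filter ℕ) ≤ Filter.cofinite)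
    (h2 : ∀ b ∈ B, b ∈ p) (h3 : ∀ s ∈ p, ∃ b ∈ B, b ⊆ s) : uNum ≤ #B :=
  csInf_le' ⟨p, B, h1, h2, h3, rfl⟩

lemma uNum_mem : ∃ (p : Ultrafilter ℕ) (B : Set (Set ℕ)), (p : Filter ℕ) ≤ Filter.cofinite ∧
    (∀ b ∈ B, b ∈ p) ∧ (∀ s ∈ p, ∃ b ∈ B, b ⊆ s) ∧ #B = uNum := by
  have h : {c | ∃ (p : Ultrafilter ℕ) (B : Set (Set ℕ)), (p : Filter ℕ) ≤ Filter.cofinite ∧
    (∀ b ∈ B, b ∈ p) ∧ (∀ s ∈ p, ∃ b ∈ B, b ⊆ s) ∧ #B = c}.Nonempty :=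
    ⟨_, Filter.hyperfilter ℕ, {s | s ∈ Filter.hyperfilter ℕ}, Filter.hyperfilter_le_cofinite,
      fun b hb => hb, fun s hs => ⟨s, hs, Subset.rfl⟩, rfl⟩
  exact csInf_mem h

lemma relOpen_sub {X U : Set ℝ} (h : RelOpen X U) : U ⊆ X := by
  obtain ⟨O, -, rfl⟩ := h
  exact inter_subset_left

/-- a countable `ω`-subcover -/
lemma countable_sub {X : Set ℝ} {𝒰 : Set (Set ℝ)} (h : OmegaCover X 𝒰) :
    ∃ 𝒱 ⊆ 𝒰, 𝒱.Countable ∧ ∀ F : Set ℝ, F.Finite → F ⊆ X → ∃ U ∈ 𝒱, F ⊆ U := by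
  classical
  obtain ⟨⟨hopen, hcov, hX⟩, hom⟩ := h
  have hB := TopologicalSpace.isBasis_countableBasis ℝ
  have hBc := TopologicalSpace.countable_countableBasis ℝ
  let T : Set (Set (Set ℝ)) := {t | (t.Finite ∧ t ⊆ TopologicalSpace.countableBasis ℝ) ∧
    ∃ U ∈ 𝒰, X ∩ ⋃₀ t ⊆ U}
  have hTc : T.Countable :=
    (Set.countable_ofPred_finite_subset hBc).mono fun t ht => ht.1
  have h1 : ∀ t ∈ T, ∃ U ∈ 𝒰, X ∩ ⋃₀ t ⊆ U := fun t ht => ht.2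
  choose! g hg1 hg2 using h1
  refine ⟨g '' T, ?_, hTc.image g, ?_⟩
  · rintro _ ⟨t, ht, rfl⟩
    exact hg1 t ht
  · intro F hF hFX
    obtain ⟨U, hU, hFU⟩ := hom F hF hFX
    obtain ⟨O, hO, rfl⟩ := hopen U hU
    have h2 : ∀ x ∈ F, ∃ b ∈ TopologicalSpace.countableBasis ℝ, x ∈ b ∧ b ⊆ O := fun x hx =>
      hB.exists_subset_of_mem_open (hFU hx).2 hO
    choose! β hβ1 hβ2 hβ3 using h2
    have hT : β '' F ∈ T := by
      refine ⟨⟨hF.image _, ?_⟩, X ∩ O, hU, ?_⟩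
      · rintro _ ⟨x, hx, rfl⟩
        exact hβ1 x hx
      · rintro y ⟨hy, b, ⟨x, hx, rfl⟩, hyb⟩
        exact ⟨hy, hβ3 x hx hyb⟩
    refine ⟨g (β '' F), ⟨_, hT, rfl⟩, fun x hx => ?_⟩
    exact hg2 _ hT ⟨hFX hx, β x, ⟨x, hx, rfl⟩, hβ2 x hx⟩

lemma infinite_of {X : Set ℝ} {𝒱 : Set (Set ℝ)} (hsub : ∀ U ∈ 𝒱, U ⊆ X) (hX : X ∉ 𝒱)
    (hom : ∀ F : Set ℝ, F.Finite → F ⊆ X → ∃ U ∈ 𝒱, F ⊆ U) {F : Set ℝ} (hF : F.Finite)
    (hFX : F ⊆ X) : {U ∈ 𝒱 | F ⊆ U}.Infinite := by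
  intro hfin
  have h1 : ∀ U ∈ 𝒱, ∃ y ∈ X, y ∉ U := by
    intro U hU
    by_contra hc
    push Not at hc
    exact hX ((hsub U hU).antisymm hc ▸ hU)
  choose! y hy1 hy2 using h1
  obtain ⟨U, hU, hs⟩ := hom (F ∪ y '' {U ∈ 𝒱 | F ⊆ U}) (hF.union (hfin.image y))
    (union_subset hFX (by
      rintro _ ⟨U, hU, rfl⟩
      exact hy1 U hU.1))
  exact hy2 U hU (hs (Or.inr ⟨U, ⟨hU, subset_union_left.trans hs⟩, rfl⟩))

/-- sets of cardinality less than the ultrafilter number have the property -/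
lemma split_of_lt {X : Set ℝ} (h : #X < uNum) : Split X := by
  classical
  intro 𝒰 h𝒰
  obtain ⟨𝒱, h𝒱sub, h𝒱c, h𝒱om⟩ := countable_sub h𝒰
  obtain ⟨⟨hopen, hcov, hX⟩, hom⟩ := h𝒰
  have hX' : X ∉ 𝒱 := fun hc => hX (h𝒱sub hc)
  have hsubX : ∀ U ∈ 𝒱, U ⊆ X := fun U hU => relOpen_sub (hopen U (h𝒱sub hU))
  have hinf : ∀ F : Set ℝ, F.Finite → F ⊆ X → {U ∈ 𝒱 | F ⊆ U}.Infinite := fun F hF hFX =>
    infinite_of hsubX hX' h𝒱om hF hFX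
  have h𝒱inf : 𝒱.Infinite := (hinf ∅ finite_empty (empty_subset _)).mono (sep_subset _ _)
  have hXinf : X.Infinite := by
    intro hc
    obtain ⟨U, hU, hs⟩ := h𝒱om X hc Subset.rfl
    exact hX' ((hsubX U hU).antisymm hs ▸ hU)
  have : Countable 𝒱 := h𝒱c.to_subtype
  have : Infinite 𝒱 := h𝒱inf.to_subtype
  have : Infinite X := hXinf.to_subtype
  obtain ⟨E⟩ : Nonempty (Denumerable 𝒱) := nonempty_denumerable 𝒱
  let e : ℕ ≃ 𝒱 := (Denumerable.eqv 𝒱).symm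
  let base : Finset X → ℕ → Set ℕ := fun s k => {n | k ≤ n ∧ ∀ x ∈ s, (x : ℝ) ∈ (e n : Set ℝ)}
  have hbase : ∀ s k, (base s k).Nonempty := by
    intro s k
    have h1 := hinf ((fun x : X => (x : ℝ)) '' (s : Set X)) (s.finite_toSet.image _) (by
      rintro _ ⟨x, -, rfl⟩
      exact x.2)
    have h2 : {n : ℕ | ∀ x ∈ s, (x : ℝ) ∈ (e n : Set ℝ)}.Infinite := by
      intro hc
      refine h1 ((hc.image fun n => (e n : Set ℝ)).subset ?_)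
      rintro U ⟨hU, hs⟩
      refine ⟨e.symm ⟨U, hU⟩, ?_, by simp⟩
      intro x hx
      simp only [Equiv.apply_symm_apply]
      exact hs ⟨x, hx, rfl⟩
    obtain ⟨n, hn, hk⟩ := h2.exists_gt k
    exact ⟨n, hk.le, hn⟩
  let f : Filter ℕ :=
    { sets := {A | ∃ s k, base s k ⊆ A}
      univ_sets := ⟨∅, 0, subset_univ _⟩
      sets_of_superset := by
        rintro A A' ⟨s, k, h1⟩ h2
        exact ⟨s, k, h1.trans h2⟩
      inter_sets := by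
        rintro A A' ⟨s, k, h1⟩ ⟨s', k', h2⟩
        refine ⟨s ∪ s', max k k', fun n hn => ⟨h1 ⟨(le_max_left _ _).trans hn.1, fun x hx =>
          hn.2 x (Finset.mem_union_left _ hx)⟩, h2 ⟨(le_max_right _ _).trans hn.1, fun x hx =>
          hn.2 x (Finset.mem_union_right _ hx)⟩⟩⟩ }
  have hf : ∀ A, A ∈ f ↔ ∃ s k, base s k ⊆ A := fun A => Iff.rfl
  -- the filter is not an ultrafilter
  have hnot : ∃ A : Set ℕ, A ∉ f ∧ Aᶜ ∉ f := by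
    by_contra hc
    push Not at hc
    have h1 : ∀ s : Set ℕ, sᶜ ∉ f ↔ s ∈ f := by
      intro s
      constructor
      · intro hs
        by_contra h2
        exact hs (hc s h2)
      · rintro ⟨t, k, ht⟩ ⟨t', k', ht'⟩
        obtain ⟨n, hn⟩ := hbase (t ∪ t') (max k k')
        have h3 : n ∈ s := ht ⟨(le_max_left _ _).trans hn.1, fun x hx =>
          hn.2 x (Finset.mem_union_left _ hx)⟩
        have h4 : n ∈ sᶜ := ht' ⟨(le_max_right _ _).trans hn.1, fun x hx =>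
          hn.2 x (Finset.mem_union_right _ hx)⟩
        exact h4 h3
    let p : Ultrafilter ℕ := Ultrafilter.ofComplNotMemIff f h1
    have hp : ∀ A, A ∈ p ↔ ∃ s k, base s k ⊆ A := fun A => Iff.rfl
    have h2 : uNum ≤ #(range fun q : Finset X × ℕ => base q.1 q.2) := by
      refine uNum_le (p := p) ?_ ?_ ?_
      · intro A hA
        rw [Filter.mem_cofinite] at hA
        obtain ⟨k, hk⟩ := hA.bddAbove
        refine (hp A).2 ⟨∅, k + 1, fun n hn => ?_⟩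
        by_contra h3
        have := hk h3
        have h4 := hn.1
        omega
      · rintro _ ⟨q, rfl⟩
        exact (hp _).2 ⟨q.1, q.2, Subset.rfl⟩
      · intro s hs
        obtain ⟨t, k, ht⟩ := (hp s).1 hs
        exact ⟨_, ⟨(t, k), rfl⟩, ht⟩
    have h3 : #(range fun q : Finset X × ℕ => base q.1 q.2) ≤ #(Finset X × ℕ) := mk_range_le
    have h4 : #(Finset X × ℕ) = #X := by
      rw [mk_prod, mk_finset_of_infinite, lift_id, mk_nat, lift_aleph0]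
      exact mul_aleph0_eq (aleph0_le_mk X)
    rw [h4] at h3
    exact absurd (h2.trans h3) (not_le.2 h)
  obtain ⟨A, hA, hA'⟩ := hnot
  have large : ∀ A : Set ℕ, Aᶜ ∉ f → LargeCover X ((fun n => (e n : Set ℝ)) '' A) := by
    intro A hA
    have key : ∀ x : X, {n | (x : ℝ) ∈ (e n : Set ℝ) ∧ n ∈ A}.Infinite := by
      intro x hfin
      obtain ⟨k, hk⟩ := hfin.bddAbove
      refine hA ⟨{x}, k + 1, fun n hn hnA => ?_⟩
      have := hk ⟨hn.2 x (Finset.mem_singleton_self x), hnA⟩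
      have h4 := hn.1
      omega
    refine ⟨⟨?_, ?_, ?_⟩, ?_⟩
    · rintro _ ⟨n, -, rfl⟩
      exact hopen _ (h𝒱sub (e n).2)
    · apply Subset.antisymm
      · apply sUnion_subset
        rintro _ ⟨n, -, rfl⟩
        exact hsubX _ (e n).2
      · intro x hx
        obtain ⟨n, hn⟩ := (key ⟨x, hx⟩).nonempty
        exact ⟨_, ⟨n, hn.2, rfl⟩, hn.1⟩
    · rintro ⟨n, -, hn⟩
      exact hX' (hn ▸ (e n).2)
    · intro x hx hfin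
      refine key ⟨x, hx⟩ ?_
      refine Set.Finite.of_finite_image (f := fun n => (e n : Set ℝ)) (hfin.subset ?_) ?_
      · rintro _ ⟨n, hn, rfl⟩
        exact ⟨⟨n, hn.2, rfl⟩, hn.1⟩
      · intro n _ m _ hnm
        exact e.injective (Subtype.ext hnm)
  refine ⟨(fun n => (e n : Set ℝ)) '' A, 𝒰 \ (fun n => (e n : Set ℝ)) '' A, ?_, disjoint_sdiff_right,
    ⟨_, Subset.rfl, large A hA'⟩, ⟨(fun n => (e n : Set ℝ)) '' Aᶜ, ?_, large Aᶜ (by rwa [compl_compl])⟩⟩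
  · apply union_sdiff_cancel
    rintro _ ⟨n, -, rfl⟩
    exact h𝒱sub (e n).2
  · rintro _ ⟨n, hn, rfl⟩
    refine ⟨h𝒱sub (e n).2, ?_⟩
    rintro ⟨m, hm, hmn⟩
    have h5 : m = n := e.injective (Subtype.ext hmn)
    exact hn (h5 ▸ hm)

/-- a base of an ultrafilter as a set of reals -/
lemma exists_nonsplit : ∃ X : Set ℝ, ¬ Split X ∧ #X = uNum := by
  classical
  obtain ⟨p, B, hp, hB1, hB2, hBc⟩ := uNum_mem
  let ι : (ℕ → Bool) → ℝ := fun f => (cantorSetHomeomorphNatToBool.symm f : ℝ)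
  have hι : Topology.IsEmbedding ι :=
    Topology.IsEmbedding.subtypeVal.comp cantorSetHomeomorphNatToBool.symm.isEmbedding
  let j : Set ℕ → ℝ := fun b => ι fun n => decide (n ∈ b)
  have hj : Function.Injective j := by
    intro b b' hbb
    have h1 := hι.injective hbb
    ext n
    have h2 := congrFun h1 n
    simpa using h2
  have hO : ∀ n : ℕ, ∃ O : Set ℝ, IsOpen O ∧ ∀ b : Set ℕ, j b ∈ O ↔ n ∈ b := by
    intro n
    have h1 : IsOpen {f : ℕ → Bool | f n = true} := by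
      have h2 : Continuous fun f : ℕ → Bool => f n := continuous_apply n
      exact (isOpen_discrete {true}).preimage h2
    obtain ⟨O, hO1, hO2⟩ := hι.isInducing.isOpen_iff.1 h1
    refine ⟨O, hO1, fun b => ?_⟩
    have h3 : (fun n => decide (n ∈ b)) ∈ ι ⁻¹' O ↔ (fun n => decide (n ∈ b)) ∈ {f : ℕ → Bool | f n = true} := by
      rw [hO2]
    simpa using h3
  choose O hO1 hO2 using hO
  have hne : ∀ F : Set (Set ℕ), F.Finite → F ⊆ B → (⋂₀ F).Nonempty := by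
    intro F hF hFB
    have h1 : ⋂₀ F ∈ (p : Filter ℕ) := (Filter.sInter_mem hF).2 fun b hb => hB1 b (hFB hb)
    exact Filter.nonempty_of_mem h1
  refine ⟨j '' B, ?_, ?_⟩
  swap
  · rw [mk_image_eq hj, hBc]
  · intro hs
    have hom : OmegaCover (j '' B) (range fun n => j '' B ∩ O n) := by
      have h1 : ∀ F : Set ℝ, F.Finite → F ⊆ j '' B → ∃ U ∈ range fun n => j '' B ∩ O n, F ⊆ U := by
        intro F hF hFB
        obtain ⟨n, hn⟩ := hne (j ⁻¹' F) (hF.preimage hj.injOn) (by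
          intro b hb
          obtain ⟨b', hb', h2⟩ := hFB hb
          exact hj h2 ▸ hb')
        refine ⟨_, ⟨n, rfl⟩, fun x hx => ?_⟩
        obtain ⟨b, hb, rfl⟩ := hFB hx
        exact ⟨⟨b, hb, rfl⟩, (hO2 n b).2 (hn b hx)⟩
      refine ⟨⟨?_, ?_, ?_⟩, h1⟩
      · rintro _ ⟨n, rfl⟩
        exact ⟨O n, hO1 n, rfl⟩
      · apply Subset.antisymm
        · apply sUnion_subset
          rintro _ ⟨n, rfl⟩
          exact inter_subset_left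
        · intro x hx
          obtain ⟨U, hU, hxU⟩ := h1 {x} (finite_singleton x) (singleton_subset_iff.2 hx)
          exact ⟨U, hU, hxU rfl⟩
      · rintro ⟨n, hn⟩
        have h2 : ({n}ᶜ : Set ℕ) ∈ p := hp (by
          rw [Filter.mem_cofinite, compl_compl]
          exact finite_singleton n)
        obtain ⟨b, hb, hbn⟩ := hB2 _ h2
        have h3 : j b ∈ j '' B ∩ O n := by
          rw [show j '' B ∩ O n = j '' B from hn]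
          exact ⟨b, hb, rfl⟩
        exact hbn ((hO2 n b).1 h3.2) rfl
    obtain ⟨𝒱, 𝒲, huni, hdis, ⟨𝒱', h𝒱', hlv⟩, ⟨𝒲', h𝒲', hlw⟩⟩ := hs _ hom
    rcases p.mem_or_compl_mem {n | j '' B ∩ O n ∈ 𝒱} with h1 | h1
    · obtain ⟨b, hb, hbA⟩ := hB2 _ h1
      have hx : j b ∈ j '' B := ⟨b, hb, rfl⟩
      obtain ⟨U, hU, hxU⟩ : j b ∈ ⋃₀ 𝒲' := hlw.1.2.1 ▸ hx
      have hU1 := h𝒲' hU
      obtain ⟨n, rfl⟩ : U ∈ range fun n => j '' B ∩ O n := huni ▸ Or.inr hU1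
      exact (Set.disjoint_left.1 hdis) (hbA ((hO2 n b).1 hxU.2)) hU1
    · obtain ⟨b, hb, hbA⟩ := hB2 _ h1
      have hx : j b ∈ j '' B := ⟨b, hb, rfl⟩
      obtain ⟨U, hU, hxU⟩ : j b ∈ ⋃₀ 𝒱' := hlv.1.2.1 ▸ hx
      have hU1 := h𝒱' hU
      obtain ⟨n, rfl⟩ : U ∈ range fun n => j '' B ∩ O n := huni ▸ Or.inl hU1
      exact hbA ((hO2 n b).1 hxU.2) hU1

/-- finite sets have no `ω`-covers -/
lemma split_finite {X : Set ℝ} (h : X.Finite) : Split X := by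
  intro 𝒰 h𝒰
  obtain ⟨U, hU, hs⟩ := h𝒰.2 X h Subset.rfl
  exact absurd ((relOpen_sub (h𝒰.1.1 U hU)).antisymm hs ▸ hU) h𝒰.1.2.2

lemma aleph0_le_uNum : ℵ₀ ≤ uNum := by
  obtain ⟨X, hX, hXu⟩ := exists_nonsplit
  rw [← hXu, ← Cardinal.infinite_iff, Set.infinite_coe_iff]
  exact fun h => hX (split_finite h)

lemma exists_family : ∃ 𝓕 : Set (Set ℝ), (∀ X ∈ 𝓕, Split X) ∧ ¬ Split (⋃₀ 𝓕) ∧
    #𝓕 ≤ uNum.ord.cof := by
  obtain ⟨X, hX, hXu⟩ := exists_nonsplit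
  have h1 : #(uNum.ord.ToType) = #X := by
    rw [mk_ord_toType, hXu]
  obtain ⟨E⟩ := Cardinal.eq.1 h1
  obtain ⟨S, hS, hSc⟩ := Order.exists_cof_eq (uNum.ord.ToType)
  refine ⟨(fun s => (fun a => (E a : ℝ)) '' Iic s) '' S, ?_, ?_, ?_⟩
  · rintro _ ⟨s, -, rfl⟩
    apply split_of_lt
    have h2 : #(Iic s) < #(uNum.ord.ToType) := mk_Iic_lt s (by simp) (by
      rw [mk_ord_toType]
      exact aleph0_le_uNum)
    rw [mk_ord_toType] at h2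
    exact mk_image_le.trans_lt h2
  · have h2 : ⋃₀ ((fun s => (fun a => (E a : ℝ)) '' Iic s) '' S) = X := by
      apply Subset.antisymm
      · apply sUnion_subset
        rintro _ ⟨s, -, rfl⟩
        rintro _ ⟨a, -, rfl⟩
        exact (E a).2
      · intro x hx
        obtain ⟨s, hs, hle⟩ := hS (E.symm ⟨x, hx⟩)
        exact ⟨_, ⟨s, hs, rfl⟩, E.symm ⟨x, hx⟩, hle, by simp⟩
    rw [h2]
    exact hX
  · rw [← Ordinal.cof_toType, ← hSc]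
    exact mk_image_le

/-- the property which passes to one of two parts -/
def Om (Y : Set ℝ) (𝒱 : Set (Set ℝ)) : Prop := ∀ F : Set ℝ, F.Finite → F ⊆ Y → ∃ U ∈ 𝒱, F ⊆ U

lemma om_union {Y : Set ℝ} {𝒱 𝒜 ℬ : Set (Set ℝ)} (h : Om Y 𝒱) (hs : 𝒱 ⊆ 𝒜 ∪ ℬ) : Om Y 𝒜 ∨ Om Y ℬ := by
  by_contra hc
  push Not at hc
  obtain ⟨h1, h2⟩ := hc
  unfold Om at h1 h2
  push Not at h1 h2
  obtain ⟨F, hF, hFY, h1⟩ := h1
  obtain ⟨G, hG, hGY, h2⟩ := h2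
  obtain ⟨U, hU, hs'⟩ := h (F ∪ G) (hF.union hG) (union_subset hFY hGY)
  rcases hs hU with h3 | h3
  · exact h1 U h3 (subset_union_left.trans hs')
  · exact h2 U h3 (subset_union_right.trans hs')

/-- one step of the construction -/
lemma step {Y X : Set ℝ} (hXY : X ⊆ Y) (hX : Split X) {𝒱 : Set (Set ℝ)} (hop : ∀ U ∈ 𝒱, RelOpen Y U)
    (hY : Y ∉ 𝒱) (hom : Om Y 𝒱) :
    ∃ 𝒱' ⊆ 𝒱, Om Y 𝒱' ∧ ∀ x ∈ X, {U ∈ 𝒱 \ 𝒱' | x ∈ U}.Infinite := by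
  classical
  rcases om_union (𝒜 := {U ∈ 𝒱 | X ⊆ U}) (ℬ := {U ∈ 𝒱 | ¬ X ⊆ U}) hom (fun U hU => by
    by_cases h : X ⊆ U
    · exact Or.inl ⟨hU, h⟩
    · exact Or.inr ⟨hU, h⟩) with h1 | h1
  · -- infinitely many members contain `X`
    have hinf : {U ∈ 𝒱 | X ⊆ U}.Infinite := by
      have h2 := infinite_of (𝒱 := {U ∈ 𝒱 | X ⊆ U}) (fun U hU => relOpen_sub (hop U hU.1))
        (fun hc => hY hc.1) h1 finite_empty (empty_subset Y)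
      exact h2.mono (sep_subset _ _)
    obtain ⟨𝒜, ℬ, hAB, hd, hA, hB⟩ : ∃ 𝒜 ℬ : Set (Set ℝ), 𝒜 ∪ ℬ = {U ∈ 𝒱 | X ⊆ U} ∧ Disjoint 𝒜 ℬ ∧
        𝒜.Infinite ∧ ℬ.Infinite := by
      have : Infinite {U ∈ 𝒱 | X ⊆ U} := hinf.to_subtype
      let g := Infinite.natEmbedding {U ∈ 𝒱 | X ⊆ U}
      refine ⟨range fun n : ℕ => ((g (2 * n) : Set ℝ)), {U ∈ 𝒱 | X ⊆ U} \ range fun n : ℕ => ((g (2 * n) : Set ℝ)),
        ?_, disjoint_sdiff_right, ?_, ?_⟩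
      · apply union_sdiff_cancel
        rintro _ ⟨n, rfl⟩
        exact (g (2 * n)).2
      · apply infinite_range_of_injective
        intro n m hnm
        have := g.injective (Subtype.ext hnm)
        omega
      · refine (infinite_range_of_injective (f := fun n : ℕ => ((g (2 * n + 1) : Set ℝ))) ?_).mono ?_
        · intro n m hnm
          have := g.injective (Subtype.ext hnm)
          omega
        · rintro _ ⟨n, rfl⟩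
          refine ⟨(g (2 * n + 1)).2, ?_⟩
          rintro ⟨m, hm⟩
          have := g.injective (Subtype.ext hm)
          omega
    have fin : ∀ 𝒜 ℬ : Set (Set ℝ), 𝒜 ⊆ {U ∈ 𝒱 | X ⊆ U} → ℬ ⊆ {U ∈ 𝒱 | X ⊆ U} → Disjoint 𝒜 ℬ →
        ℬ.Infinite → Om Y 𝒜 → ∃ 𝒱' ⊆ 𝒱, Om Y 𝒱' ∧ ∀ x ∈ X, {U ∈ 𝒱 \ 𝒱' | x ∈ U}.Infinite := by
      intro 𝒜 ℬ hA hB hd hBi hO
      refine ⟨𝒜, fun U hU => (hA hU).1, hO, fun x hx => hBi.mono fun U hU => ?_⟩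
      exact ⟨⟨(hB hU).1, fun hc => Set.disjoint_left.1 hd hc hU⟩, (hB hU).2 hx⟩
    rcases om_union h1 hAB.symm.subset with h2 | h2
    · exact fin 𝒜 ℬ (hAB ▸ subset_union_left) (hAB ▸ subset_union_right) hd hB h2
    · exact fin ℬ 𝒜 (hAB ▸ subset_union_right) (hAB ▸ subset_union_left) hd.symm hA h2
  · -- the traces
    have hcov : OmegaCover X ((fun U => X ∩ U) '' {U ∈ 𝒱 | ¬ X ⊆ U}) := by
      have h2 : ∀ F : Set ℝ, F.Finite → F ⊆ X → ∃ U ∈ (fun U => X ∩ U) '' {U ∈ 𝒱 | ¬ X ⊆ U}, F ⊆ U := by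
        intro F hF hFX
        obtain ⟨U, hU, hs⟩ := h1 F hF (hFX.trans hXY)
        exact ⟨_, ⟨U, hU, rfl⟩, subset_inter hFX hs⟩
      refine ⟨⟨?_, ?_, ?_⟩, h2⟩
      · rintro _ ⟨U, hU, rfl⟩
        obtain ⟨O, hO, rfl⟩ := hop U hU.1
        refine ⟨O, hO, ?_⟩
        simp only
        rw [← inter_assoc, inter_eq_left.2 hXY]
      · apply Subset.antisymm
        · apply sUnion_subset
          rintro _ ⟨U, -, rfl⟩
          exact inter_subset_left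
        · intro x hx
          obtain ⟨U, hU, hxU⟩ := h2 {x} (finite_singleton x) (singleton_subset_iff.2 hx)
          exact ⟨U, hU, hxU rfl⟩
      · rintro ⟨U, hU, hc⟩
        exact hU.2 (inter_eq_left.1 hc)
    obtain ⟨𝒯, 𝒯', huni, hdis, ⟨𝒮, h𝒮, hl⟩, ⟨𝒮', h𝒮', hl'⟩⟩ := hX _ hcov
    have fin : ∀ 𝒯 𝒯' 𝒮' : Set (Set ℝ), 𝒯 ∪ 𝒯' = (fun U => X ∩ U) '' {U ∈ 𝒱 | ¬ X ⊆ U} → Disjoint 𝒯 𝒯' →
        𝒮' ⊆ 𝒯' → LargeCover X 𝒮' → Om Y {U ∈ {U ∈ 𝒱 | ¬ X ⊆ U} | X ∩ U ∈ 𝒯} →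
        ∃ 𝒱' ⊆ 𝒱, Om Y 𝒱' ∧ ∀ x ∈ X, {U ∈ 𝒱 \ 𝒱' | x ∈ U}.Infinite := by
      intro 𝒯 𝒯' 𝒮' huni hdis hsub hl hO
      refine ⟨_, fun U hU => hU.1.1, hO, fun x hx hfin => ?_⟩
      refine hl.2 x hx ((hfin.image fun U => X ∩ U).subset ?_)
      rintro T ⟨hT, hxT⟩
      obtain ⟨U, hU, rfl⟩ : T ∈ (fun U => X ∩ U) '' {U ∈ 𝒱 | ¬ X ⊆ U} := huni ▸ Or.inr (hsub hT)
      exact ⟨U, ⟨⟨hU.1, fun hc => Set.disjoint_left.1 hdis hc.2 (hsub hT)⟩, hxT.2⟩, rfl⟩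
    rcases om_union (𝒜 := {U ∈ {U ∈ 𝒱 | ¬ X ⊆ U} | X ∩ U ∈ 𝒯})
      (ℬ := {U ∈ {U ∈ 𝒱 | ¬ X ⊆ U} | X ∩ U ∈ 𝒯'}) h1 (fun U hU => by
        have h3 : X ∩ U ∈ 𝒯 ∪ 𝒯' := huni ▸ ⟨U, hU, rfl⟩
        rcases h3 with h3 | h3
        · exact Or.inl ⟨hU, h3⟩
        · exact Or.inr ⟨hU, h3⟩) with h2 | h2
    · exact fin 𝒯 𝒯' 𝒮' huni hdis h𝒮' hl' h2
    · exact fin 𝒯' 𝒯 𝒮 (by rw [union_comm]; exact huni) hdis.symm h𝒮 hl h2

/-- countable unions -/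
lemma split_iUnion {X : ℕ → Set ℝ} (hX : ∀ n, Split (X n)) : Split (⋃ n, X n) := by
  classical
  intro 𝒰 h𝒰
  set Y := ⋃ n, X n with hYdef
  obtain ⟨⟨hopen, hcov, hY⟩, hom⟩ := h𝒰
  have hstep : ∀ (q : {𝒱 : Set (Set ℝ) // 𝒱 ⊆ 𝒰 ∧ Om Y 𝒱}) (k : ℕ),
      ∃ q' : {𝒱 : Set (Set ℝ) // 𝒱 ⊆ 𝒰 ∧ Om Y 𝒱}, q'.1 ⊆ q.1 ∧
        ∀ x ∈ X k, {U ∈ q.1 \ q'.1 | x ∈ U}.Infinite := by
    intro q k
    obtain ⟨𝒱', h1, h2, h3⟩ := step (subset_iUnion X k) (hX k) (fun U hU => hopen U (q.2.1 hU))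
      (fun hc => hY (q.2.1 hc)) q.2.2
    exact ⟨⟨𝒱', h1.trans q.2.1, h2⟩, h1, h3⟩
  choose nx hnx1 hnx2 using hstep
  let V : ℕ → {𝒱 : Set (Set ℝ) // 𝒱 ⊆ 𝒰 ∧ Om Y 𝒱} := fun n =>
    Nat.rec ⟨𝒰, Subset.rfl, hom⟩ (fun n q => nx q (n / 2)) n
  have hV : ∀ n, V (n + 1) = nx (V n) (n / 2) := fun n => rfl
  have hanti : Antitone fun n => (V n).1 := antitone_nat_of_succ_le fun n => by
    rw [hV]
    exact hnx1 _ _
  have hinf : ∀ n, ∀ x ∈ X (n / 2), {U ∈ (V n).1 \ (V (n + 1)).1 | x ∈ U}.Infinite := by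
    intro n x hx
    rw [hV]
    exact hnx2 _ _ x hx
  have large : ∀ 𝒮 ⊆ 𝒰, (∀ k, ∀ x ∈ X k, {U ∈ 𝒮 | x ∈ U}.Infinite) → LargeCover Y 𝒮 := by
    intro 𝒮 hs h1
    have h2 : ∀ x ∈ Y, {U ∈ 𝒮 | x ∈ U}.Infinite := by
      intro x hx
      obtain ⟨k, hk⟩ := mem_iUnion.1 hx
      exact h1 k x hk
    refine ⟨⟨fun U hU => hopen U (hs hU), ?_, fun hc => hY (hs hc)⟩, h2⟩
    apply Subset.antisymm
    · exact sUnion_subset fun U hU => relOpen_sub (hopen U (hs hU))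
    · intro x hx
      obtain ⟨U, hU⟩ := (h2 x hx).nonempty
      exact ⟨U, hU.1, hU.2⟩
  have hdisj : ∀ n m, n < m → ∀ U ∈ (V n).1 \ (V (n + 1)).1, U ∉ (V m).1 := by
    intro n m hnm U hU hc
    exact hU.2 (hanti (show n + 1 ≤ m from hnm) hc)
  refine ⟨⋃ k : ℕ, (V (2 * k)).1 \ (V (2 * k + 1)).1,
    𝒰 \ ⋃ k : ℕ, (V (2 * k)).1 \ (V (2 * k + 1)).1, ?_, disjoint_sdiff_right,
    ⟨_, Subset.rfl, large _ ?_ ?_⟩, ⟨⋃ k : ℕ, (V (2 * k + 1)).1 \ (V (2 * k + 2)).1, ?_, large _ ?_ ?_⟩⟩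
  · apply union_sdiff_cancel
    exact iUnion_subset fun k => sdiff_subset.trans (V (2 * k)).2.1
  · exact iUnion_subset fun k => sdiff_subset.trans (V (2 * k)).2.1
  · intro k x hx
    have h1 := hinf (2 * k) x (by rwa [show 2 * k / 2 = k by omega])
    exact h1.mono fun U hU => ⟨mem_iUnion.2 ⟨k, hU.1⟩, hU.2⟩
  · intro U hU
    obtain ⟨k, hk⟩ := mem_iUnion.1 hU
    refine ⟨(V (2 * k + 1)).2.1 hk.1, ?_⟩
    intro hc
    obtain ⟨l, hl⟩ := mem_iUnion.1 hc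
    rcases lt_trichotomy (2 * l) (2 * k + 1) with h1 | h1 | h1
    · exact hdisj _ _ h1 U hl hk.1
    · omega
    · exact hdisj _ _ h1 U hk hl.1
  · exact iUnion_subset fun k => sdiff_subset.trans (V (2 * k + 1)).2.1
  · intro k x hx
    have h1 := hinf (2 * k + 1) x (by rwa [show (2 * k + 1) / 2 = k by omega])
    exact h1.mono fun U hU => ⟨mem_iUnion.2 ⟨k, hU.1⟩, hU.2⟩

lemma split_countable {𝓕 : Set (Set ℝ)} (hc : 𝓕.Countable) (h : ∀ X ∈ 𝓕, Split X) :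
    Split (⋃₀ 𝓕) := by
  rcases 𝓕.eq_empty_or_nonempty with rfl | hne
  · rw [sUnion_empty]
    exact split_finite finite_empty
  · obtain ⟨X, rfl⟩ := hc.exists_eq_range hne
    rw [sUnion_range]
    exact split_iUnion fun n => h _ ⟨n, rfl⟩

lemma uNum_le_continuum : uNum ≤ 𝔠 := by
  obtain ⟨X, -, hX⟩ := exists_nonsplit
  rw [← hX, ← mk_real]
  exact mk_set_le X

/-- **`ℵ₁ ≤ add(Split(Ω, Λ)) ≤ cf(𝔲) ≤ 𝔲 = non(Split(Ω, Λ)) ≤ 𝔠`**, and the additivity number is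
attained. -/
theorem result : ℵ₁ ≤ addS ∧ addS ≤ uNum.ord.cof ∧ uNum.ord.cof ≤ uNum ∧ uNum = nonS ∧ uNum ≤ 𝔠 ∧
    ∃ 𝓕 : Set (Set ℝ), (∀ X ∈ 𝓕, Split X) ∧ ¬ Split (⋃₀ 𝓕) ∧ #𝓕 = addS := by
  obtain ⟨𝓕, h1, h2, h3⟩ := exists_family
  have hmem : ∃ 𝓕 : Set (Set ℝ), (∀ X ∈ 𝓕, Split X) ∧ ¬ Split (⋃₀ 𝓕) ∧ #𝓕 = addS :=
    csInf_mem (s := {c | ∃ 𝓕 : Set (Set ℝ), (∀ X ∈ 𝓕, Split X) ∧ ¬ Split (⋃₀ 𝓕) ∧ #𝓕 = c})
      ⟨_, 𝓕, h1, h2, rfl⟩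
  refine ⟨?_, ?_, Ordinal.cof_ord_le _, ?_, uNum_le_continuum, hmem⟩
  · obtain ⟨𝓖, hg1, hg2, hg3⟩ := hmem
    rw [← hg3, ← succ_aleph0, Order.succ_le_iff, ← not_le, mk_le_aleph0_iff]
    intro hc
    exact hg2 (split_countable hc hg1)
  · exact (csInf_le' (s := {c | ∃ 𝓕 : Set (Set ℝ), (∀ X ∈ 𝓕, Split X) ∧ ¬ Split (⋃₀ 𝓕) ∧ #𝓕 = c})
      ⟨𝓕, h1, h2, rfl⟩).trans h3
  · apply le_antisymm
    · have h4 : nonS ∈ {c | ∃ X : Set ℝ, ¬ Split X ∧ #X = c} := by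
        obtain ⟨X, hX, hXu⟩ := exists_nonsplit
        exact csInf_mem (s := {c | ∃ X : Set ℝ, ¬ Split X ∧ #X = c}) ⟨_, X, hX, rfl⟩
      obtain ⟨X, hX, hXn⟩ := h4
      rw [← hXn]
      by_contra hc
      exact hX (split_of_lt (not_le.1 hc))
    · obtain ⟨X, hX, hXu⟩ := exists_nonsplit
      exact csInf_le' (s := {c | ∃ X : Set ℝ, ¬ Split X ∧ #X = c}) ⟨X, hX, hXu⟩

end Pool.Agent.Results.MP_312f56_gt.AdditivityAtMostCofU
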